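import Pool.Agent.Helper68.KP.StS

/-!
# Project KP (MP_26be5b_ag), module JEN of helper68

Jensen's inequality for the compression of an exponential.
-/

set_option autoImplicit false

namespace Pool.Agent.Helper75.KP

open Pool.Agent.Helper68.KP Matrix Finset

/-- a Hermitian matrix is `Q diag(a) Qᴴ` and its exponential is `Q diag(e^a) Qᴴ` -/
theorem diag_form (N : ℕ) (A : Matrix (Fin N) (Fin N) ℂ) (hA : A.IsHermitian) :
    ∃ (Q : Matrix (Fin N) (Fin N) ℂ) (a : Fin N → ℝ), Qᴴ * Q = 1 ∧ Q * Qᴴ = 1 ∧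
      A = Q * diagonal (fun i => (a i : ℂ)) * Qᴴ ∧
      NormedSpace.exp A = Q * diagonal (fun i => ((Real.exp (a i) : ℝ) : ℂ)) * Qᴴ := by
  have hQ1 : ((hA.eigenvectorUnitary : Matrix (Fin N) (Fin N) ℂ))ᴴ *
      (hA.eigenvectorUnitary : Matrix (Fin N) (Fin N) ℂ) = 1 :=
    Unitary.coe_star_mul_self hA.eigenvectorUnitary
  have hQ2 : (hA.eigenvectorUnitary : Matrix (Fin N) (Fin N) ℂ) *
      ((hA.eigenvectorUnitary : Matrix (Fin N) (Fin N) ℂ))ᴴ = 1 :=
    Unitary.coe_mul_star_self hA.eigenvectorUnitary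
  have hdiag : A = (hA.eigenvectorUnitary : Matrix (Fin N) (Fin N) ℂ) *
      diagonal (fun i => ((hA.eigenvalues i : ℝ) : ℂ)) *
      ((hA.eigenvectorUnitary : Matrix (Fin N) (Fin N) ℂ))ᴴ := by
    have h := hA.spectral_theorem
    rw [Unitary.conjStarAlgAut_apply] at h
    exact h
  refine ⟨(hA.eigenvectorUnitary : Matrix (Fin N) (Fin N) ℂ), hA.eigenvalues, hQ1, hQ2, hdiag, ?_⟩
  generalize (hA.eigenvectorUnitary : Matrix (Fin N) (Fin N) ℂ) = Q at hQ1 hQ2 hdiag ⊢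
  have hinv : Q⁻¹ = Qᴴ := Matrix.inv_eq_left_inv hQ1
  have hu : IsUnit Q := by
    rw [Matrix.isUnit_iff_isUnit_det]
    exact Matrix.isUnit_det_of_left_inverse hQ1
  have h2 := Matrix.exp_conj Q (diagonal (fun i => ((hA.eigenvalues i : ℝ) : ℂ))) hu
  rw [hinv, ← hdiag, Matrix.exp_diagonal] at h2
  rw [h2]
  congr 2
  congr 1
  funext i
  rw [Pi.exp_def, ← Complex.exp_eq_exp_ℂ, Complex.ofReal_exp]

/-- the diagonal entries of `Cᴴ diag(d) C` -/
theorem diag_entry (N p : ℕ) (C : Matrix (Fin N) (Fin p) ℂ) (d : Fin N → ℝ) (i : Fin p) :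
    (Cᴴ * diagonal (fun j => (d j : ℂ)) * C) i i = ((∑ j, ‖C j i‖ ^ 2 * d j : ℝ) : ℂ) := by
  rw [Matrix.mul_assoc, Matrix.mul_apply]
  push_cast
  refine Finset.sum_congr rfl fun j _ => ?_
  rw [Matrix.diagonal_mul, Matrix.conjTranspose_apply]
  have h : star (C j i) * C j i = ((‖C j i‖ : ℝ) : ℂ) ^ 2 := by
    rw [mul_comm]
    have := Complex.mul_conj (C j i)
    rw [Complex.normSq_eq_norm_sq] at this
    push_cast at this
    exact this
  rw [← h]
  ring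

theorem hJEN : StJEN := by
  intro N p A V hA hV
  obtain ⟨Q, a, hQ1, hQ2, hAd, hAe⟩ := diag_form N A hA
  have hM : (Vᴴ * NormedSpace.exp A * V).IsHermitian := by
    have := Matrix.isHermitian_conjTranspose_mul_mul V hA.exp
    exact this
  obtain ⟨U, m, hU1, hU2, hMd, -⟩ := diag_form p _ hM
  have hC : (Qᴴ * V * U)ᴴ * (Qᴴ * V * U) = 1 := by
    rw [conjTranspose_mul, conjTranspose_mul, conjTranspose_conjTranspose]
    calc Uᴴ * (Vᴴ * Q) * (Qᴴ * V * U) = Uᴴ * (Vᴴ * (Q * Qᴴ) * V) * U := by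
          simp only [Matrix.mul_assoc]
      _ = 1 := by rw [hQ2, Matrix.mul_one, hV, Matrix.mul_one, hU1]
  have hsum : ∀ i, ∑ j, ‖(Qᴴ * V * U) j i‖ ^ 2 = 1 := by
    intro i
    have h := diag_entry N p (Qᴴ * V * U) (fun _ => 1) i
    have h1 : (diagonal (fun _ : Fin N => ((1 : ℝ) : ℂ))) = 1 := by
      rw [Complex.ofReal_one]
      exact diagonal_one
    rw [h1, Matrix.mul_one, hC, Matrix.one_apply_eq] at h
    have h2 := congrArg Complex.re h
    rw [Complex.ofReal_re, Complex.one_re] at h2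
    rw [h2]
    refine Finset.sum_congr rfl fun j _ => ?_
    rw [mul_one]
  -- eigenvalues
  have hm : ∀ i, m i = ∑ j, ‖(Qᴴ * V * U) j i‖ ^ 2 * Real.exp (a j) := by
    intro i
    have h := diag_entry N p (Qᴴ * V * U) (fun j => Real.exp (a j)) i
    have h1 : (Qᴴ * V * U)ᴴ * diagonal (fun j => ((Real.exp (a j) : ℝ) : ℂ)) * (Qᴴ * V * U) =
        diagonal (fun i => ((m i : ℝ) : ℂ)) := by
      rw [conjTranspose_mul, conjTranspose_mul, conjTranspose_conjTranspose]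
      calc Uᴴ * (Vᴴ * Q) * diagonal (fun j => ((Real.exp (a j) : ℝ) : ℂ)) * (Qᴴ * V * U)
          = Uᴴ * (Vᴴ * (Q * diagonal (fun j => ((Real.exp (a j) : ℝ) : ℂ)) * Qᴴ) * V) * U := by
            simp only [Matrix.mul_assoc]
        _ = Uᴴ * (U * diagonal (fun i => ((m i : ℝ) : ℂ)) * Uᴴ) * U := by
            rw [← hAe, ← hMd]
        _ = (Uᴴ * U) * diagonal (fun i => ((m i : ℝ) : ℂ)) * (Uᴴ * U) := by
            simp only [Matrix.mul_assoc]
        _ = _ := by rw [hU1, Matrix.one_mul, Matrix.mul_one]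
    rw [h1, diagonal_apply_eq] at h
    exact_mod_cast h
  have htr : (Vᴴ * A * V).trace.re = ∑ i, ∑ j, ‖(Qᴴ * V * U) j i‖ ^ 2 * a j := by
    have h0 : (Vᴴ * A * V).trace = ((Qᴴ * V * U)ᴴ * diagonal (fun j => ((a j : ℝ) : ℂ)) *
        (Qᴴ * V * U)).trace := by
      rw [conjTranspose_mul, conjTranspose_mul, conjTranspose_conjTranspose]
      calc (Vᴴ * A * V).trace = (Uᴴ * (Vᴴ * A * V) * U).trace := by
            rw [Matrix.trace_mul_cycle Uᴴ (Vᴴ * A * V) U, hU2, Matrix.one_mul]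
        _ = (Uᴴ * (Vᴴ * (Q * diagonal (fun j => ((a j : ℝ) : ℂ)) * Qᴴ) * V) * U).trace := by
            rw [← hAd]
        _ = _ := by simp only [Matrix.mul_assoc]
    rw [h0, Matrix.trace]
    have h1 : ∀ i, ((Qᴴ * V * U)ᴴ * diagonal (fun j => ((a j : ℝ) : ℂ)) * (Qᴴ * V * U)).diag i =
        ((∑ j, ‖(Qᴴ * V * U) j i‖ ^ 2 * a j : ℝ) : ℂ) := fun i =>
      diag_entry N p (Qᴴ * V * U) a i
    simp only [h1]
    rw [← Complex.ofReal_sum, Complex.ofReal_re]
  have hdet : ((Vᴴ * NormedSpace.exp A * V).det).re = ∏ i, m i := by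
    rw [hMd, det_mul, det_mul, det_diagonal]
    have h1 : U.det * Uᴴ.det = 1 := by rw [← det_mul, hU2, det_one]
    have h2 : U.det * (∏ i, ((m i : ℝ) : ℂ)) * Uᴴ.det = ∏ i, ((m i : ℝ) : ℂ) := by
      calc U.det * (∏ i, ((m i : ℝ) : ℂ)) * Uᴴ.det = (U.det * Uᴴ.det) * ∏ i, ((m i : ℝ) : ℂ) := by
            ring
        _ = _ := by rw [h1, one_mul]
    rw [h2, ← Complex.ofReal_prod, Complex.ofReal_re]
  rw [htr, hdet, Real.exp_sum]
  refine Finset.prod_le_prod (fun i _ => (Real.exp_pos _).le) fun i _ => ?_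
  rw [hm i]
  have h := convexOn_exp.map_sum_le (t := Finset.univ) (w := fun j => ‖(Qᴴ * V * U) j i‖ ^ 2)
    (p := a) (fun j _ => by positivity) (hsum i) (fun j _ => Set.mem_univ _)
  simpa only [smul_eq_mul] using h

end Pool.Agent.Helper75.KP
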