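import Pool.Agent.Helper52.KP.StF
import Pool.Agent.Helper52.KP.StW

/-!
# Project KP (MP_26be5b_ag), module FF2 of helper52

The isomorphism with the regular functions on the orbit; dimensions, constants.
-/

set_option autoImplicit false

namespace Pool.Agent.Helper75.KP

open Pool.Agent.Helper52.KP Pool.Agent.Helper67.NO Filter Topology

universe u

section

variable {g : Type u} [LieRing g] [LieAlgebra ℂ g] [FiniteDimensional ℂ g]

theorem expAd_zero (x : g) : expAd (0 : g) x = x := by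
  have h : (LieAlgebra.ad ℂ g (0 : g) : g →ₗ[ℂ] g) = 0 := by
    rw [map_zero]
  unfold expAd
  rw [h, map_zero, NormedSpace.exp_zero, Matrix.toLin_one, LinearMap.id_apply]

theorem chart_zero {k : ℕ} (x : g) (X : Fin k → g) : chart x X 0 = x := by
  unfold chart
  have h : (∑ j, (0 : Fin k → ℂ) j • X j) = 0 := by
    simp only [Pi.zero_apply, zero_smul, Finset.sum_const_zero]
  rw [h, expAd_zero]

theorem frm_exists (x : g) : ∃ (k : ℕ) (X : Fin k → g), Frm x X := by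
  set L : g →ₗ[ℂ] g := (LieAlgebra.ad ℂ g x : g →ₗ[ℂ] g) with hL
  have h1 : ∀ i, ∃ X : g, L X =
      ((Module.finBasis ℂ (LinearMap.range L) i : LinearMap.range L) : g) := fun i =>
    (Module.finBasis ℂ (LinearMap.range L) i).2
  choose X hX using h1
  have hb : ∀ i, ⁅-X i, x⁆ = ((Module.finBasis ℂ (LinearMap.range L) i : LinearMap.range L) : g) := by
    intro i
    rw [← hX i, hL, LieAlgebra.ad_apply, neg_lie, lie_skew]
  refine ⟨Module.finrank ℂ (LinearMap.range L), fun i => -X i, ?_, ?_⟩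
  · simp only [hb]
    have := (Module.finBasis ℂ (LinearMap.range L)).linearIndependent.map'
      (LinearMap.range L).subtype (Submodule.ker_subtype _)
    exact this
  · simp only [hb]
    have h2 : (Set.range fun i => ((Module.finBasis ℂ (LinearMap.range L) i :
        LinearMap.range L) : g)) = (LinearMap.range L).subtype ''
        Set.range (Module.finBasis ℂ (LinearMap.range L)) := by
      rw [← Set.range_comp]
      rfl
    rw [h2, Submodule.span_image, (Module.finBasis ℂ (LinearMap.range L)).span_eq,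
      Submodule.map_subtype_top]

/-- a point of the orbit -/
def mkO {x₀ : g} (x : g) (h : Orb x₀ x) : OO x₀ := ⟨x, h⟩

theorem ext_of_orb {x₀ : g} (f : OO x₀ → ℂ) (x : g) (h : Orb x₀ x) : ext f x = f (mkO x h) := by
  simp only [ext, h, dif_pos]
  rfl

theorem hol_mul {x₀ : g} {k k' : ℕ} {f f' : OO x₀ → ℂ} (hf : f ∈ Hol x₀ k) (hf' : f' ∈ Hol x₀ k') :
    f * f' ∈ Hol x₀ (k + k') := by
  obtain ⟨h1, h2⟩ := hf
  obtain ⟨h1', h2'⟩ := hf'
  refine ⟨fun x j X => ?_, fun x y c hc hy => ?_⟩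
  · exact (h1 x j X).mul (h1' x j X)
  · rw [Pi.mul_apply, Pi.mul_apply, h2 x y c hc hy, h2' x y c hc hy]
    ring

/-- `{Δ ≠ 0}` is not empty -/
theorem U_nonempty {x₀ : g} (C : Ch x₀) : ∃ z, MvPolynomial.eval z C.Δ ≠ 0 := by
  by_contra h
  push Not at h
  exact C.Δ0 (MvPolynomial.funext fun z => by rw [h z, map_zero])

end

/-- two functions in `Hol` which agree on the image of the chart are equal -/
theorem hol_unique (hCNX : StCNX.{u}) (g : Type u) [LieRing g] [LieAlgebra ℂ g]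
    [FiniteDimensional ℂ g] [LieAlgebra.IsSemisimple ℂ g] (x₀ : g) (hx₀ : x₀ ≠ 0)
    (hnil : IsNilpotent (LieAlgebra.ad ℂ g x₀)) (C : Ch x₀) (k : ℕ) (f f' : OO x₀ → ℂ)
    (hf : f ∈ Hol x₀ k) (hf' : f' ∈ Hol x₀ k)
    (h : ∀ z, MvPolynomial.eval z C.Δ ≠ 0 → ext f (C.Φ z) = ext f' (C.Φ z)) : f = f' := by
  by_contra hne
  have hd : f - f' ∈ Hol x₀ k := Submodule.sub_mem _ hf hf'
  have hd0 : f - f' ≠ 0 := sub_ne_zero.mpr hne
  obtain ⟨z₀, hz₀⟩ := U_nonempty C
  obtain ⟨j, X, hX⟩ := frm_exists (C.Φ z₀)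
  have hO := C.orb z₀ hz₀
  have hp := C.p1mem
  have hdiff := hp.1 ⟨C.Φ z₀, hO⟩ j X
  have hopen : IsOpen {w : Fin j → ℂ | C.p₁ (mkO (chart (C.Φ z₀) X w) (Orb.step _ _ hO)) ≠ 0} :=
    isOpen_ne_fun hdiff.continuous continuous_const
  have hne0 : (0 : Fin j → ℂ) ∈
      {w : Fin j → ℂ | C.p₁ (mkO (chart (C.Φ z₀) X w) (Orb.step _ _ hO)) ≠ 0} :=
    (C.p1 _).mpr ⟨z₀, hz₀, (chart_zero _ _).symm⟩
  obtain ⟨w, hw, hw'⟩ := hCNX g x₀ hx₀ hnil k (f - f') hd hd0 ⟨C.Φ z₀, hO⟩ j X hX _ hopen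
    ⟨0, hne0⟩
  obtain ⟨z, hz, hzw⟩ := (C.p1 _).mp hw
  apply hw'
  have e1 : chart (C.Φ z₀) X w = C.Φ z := hzw.symm
  show ext (f - f') (chart (C.Φ z₀) X w) = 0
  rw [e1, ext_of_orb _ _ (C.orb z hz), Pi.sub_apply]
  have := h z hz
  rw [ext_of_orb _ _ (C.orb z hz), ext_of_orb _ _ (C.orb z hz)] at this
  rw [this, sub_self]

theorem hFF2 (hHPO : StHPO.{u}) (hFF1 : StFF1.{u}) (hCNX : StCNX.{u}) : StFF2.{u} := by
  intro g _ _ _ _ x₀ hx₀ hnil C ρ y rd hHD K hK
  subst hK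
  have hF1 := hFF1 g x₀ hx₀ hnil C ρ y rd _ rfl
  obtain ⟨-, -, -, -, huniq⟩ := hF1
  have huniq' : ∀ f f' : MvPolynomial (Fin C.m) ℂ, (∀ z, MvPolynomial.eval z C.Δ ≠ 0 →
      MvPolynomial.eval z f = MvPolynomial.eval z f') → f = f' := fun f f' h => huniq f f' h
  -- the map
  have hch : ∀ (k : ℕ) (P : C.RR k), ∃ f : Hol x₀ k, ∀ z, MvPolynomial.eval z C.Δ ≠ 0 →
      MvPolynomial.eval z (P : MvPolynomial (Fin C.m) ℂ) = ext (f : OO x₀ → ℂ) (C.Φ z) := by
    intro k P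
    obtain ⟨f, hf, h⟩ := P.2
    exact ⟨⟨f, hf⟩, h⟩
  choose T hT using hch
  have hTu : ∀ (k : ℕ) (P : C.RR k) (f : Hol x₀ k), (∀ z, MvPolynomial.eval z C.Δ ≠ 0 →
      MvPolynomial.eval z (P : MvPolynomial (Fin C.m) ℂ) = ext (f : OO x₀ → ℂ) (C.Φ z)) →
      T k P = f := by
    intro k P f h
    apply Subtype.ext
    refine hol_unique hCNX g x₀ hx₀ hnil C k _ _ (T k P).2 f.2 fun z hz => ?_
    rw [← hT k P z hz, h z hz]
  let L : ∀ k, C.RR k →ₗ[ℂ] Hol x₀ k := fun k =>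
    { toFun := T k
      map_add' := by
        intro P P'
        refine hTu k _ _ fun z hz => ?_
        have hO := C.orb z hz
        have e1 := hT k P z hz
        have e2 := hT k P' z hz
        rw [ext_of_orb _ _ hO] at e1 e2
        rw [ext_of_orb _ _ hO, Submodule.coe_add, Submodule.coe_add, map_add, Pi.add_apply, e1, e2]
      map_smul' := by
        intro a P
        refine hTu k _ _ fun z hz => ?_
        have hO := C.orb z hz
        have e1 := hT k P z hz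
        rw [ext_of_orb _ _ hO] at e1
        rw [ext_of_orb _ _ hO, RingHom.id_apply, Submodule.coe_smul, Submodule.coe_smul,
          MvPolynomial.smul_eval, Pi.smul_apply, e1, smul_eq_mul] }
  have hbij : ∀ k, Function.Bijective (L k) := by
    intro k
    constructor
    · intro P P' h
      apply Subtype.ext
      refine huniq' _ _ fun z hz => ?_
      rw [hT k P z hz, hT k P' z hz]
      have h' : T k P = T k P' := h
      rw [h']
    · intro f
      obtain ⟨P, hP, -⟩ := hHPO g x₀ hx₀ hnil C k f.1 f.2 (hHD.bdd k f.1 f.2)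
      exact ⟨⟨P, f.1, f.2, hP⟩, hTu k _ _ hP⟩
  let E : ∀ k, C.RR k ≃ₗ[ℂ] Hol x₀ k := fun k => LinearEquiv.ofBijective (L k) (hbij k)
  have hE : ∀ (k : ℕ) (P : C.RR k) z, MvPolynomial.eval z C.Δ ≠ 0 →
      MvPolynomial.eval z (P : MvPolynomial (Fin C.m) ℂ) = ext (E k P : OO x₀ → ℂ) (C.Φ z) :=
    fun k P z hz => hT k P z hz
  have hconst : ∀ f ∈ C.RR 0, ∃ c : ℂ, f = MvPolynomial.C c := by
    intro f hf
    obtain ⟨c, hc⟩ := hHD.cst (E 0 ⟨f, hf⟩ : OO x₀ → ℂ) (E 0 ⟨f, hf⟩).2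
    refine ⟨c, huniq' _ _ fun z hz => ?_⟩
    have := hE 0 ⟨f, hf⟩ z hz
    rw [ext_of_orb _ _ (C.orb z hz), hc] at this
    rw [MvPolynomial.eval_C]
    exact this
  have hmult : ∀ (k k' : ℕ) (f : C.RR k) (f' : C.RR k') (ff : C.RR (k + k')),
      (ff : MvPolynomial (Fin C.m) ℂ) = f * f' →
      ((E (k + k') ff : Hol x₀ (k + k')) : OO x₀ → ℂ) =
        (E k f : OO x₀ → ℂ) * (E k' f' : OO x₀ → ℂ) := by
    intro k k' f f' ff hff
    refine hol_unique hCNX g x₀ hx₀ hnil C (k + k') _ _ (E (k + k') ff).2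
      (hol_mul (E k f).2 (E k' f').2) fun z hz => ?_
    have hO := C.orb z hz
    have e1 := hE k f z hz
    have e2 := hE k' f' z hz
    have e3 := hE (k + k') ff z hz
    rw [ext_of_orb _ _ hO] at e1 e2 e3
    rw [ext_of_orb _ _ hO, ext_of_orb _ _ hO, Pi.mul_apply, ← e1, ← e2, ← e3, hff, map_mul]
  refine ⟨fun k => ?_, fun f hf => ?_, ?_, fun k => (E k).trans (LinearEquiv.ofEq _ _ (hHD.reg k)),
    ?_⟩
  · have := hHD.fd k
    show FiniteDimensional ℂ (C.RR k)
    exact Module.Finite.equiv (E k).symm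
  · exact hconst f hf
  · have h := hHD.dim
    have h2 : ∀ k, Module.finrank ℂ ((mkCone C ρ y rd).R k) = Module.finrank ℂ (Hol x₀ k) :=
      fun k => (E k).finrank_eq
    simp only [h2]
    exact h
  · intro k k' f f' ff hff
    exact hmult k k' f f' ff hff

end Pool.Agent.Helper75.KP
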