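import Pool.Agent.Helper52.KP.StM

/-! Project KP (MP_26be5b_ag), module CSD. -/

set_option autoImplicit false

namespace Pool.Agent.Helper75.KP

open MeasureTheory Filter Pool.Agent.Helper52.KP
open scoped ContDiff ComplexOrder Topology

private noncomputable def bf {m : ℕ} (H : Matrix (Fin m) (Fin m) ℂ) (x y : Fin m → ℂ) : ℂ :=
  ∑ j, ∑ k, H j k * x j * star (y k)

private theorem bf_add_left {m : ℕ} (H : Matrix (Fin m) (Fin m) ℂ) (x x' y : Fin m → ℂ) :
    bf H (fun j => x j + x' j) y = bf H x y + bf H x' y := by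
  unfold bf
  rw [← Finset.sum_add_distrib]
  refine Finset.sum_congr rfl fun j _ => ?_
  rw [← Finset.sum_add_distrib]
  refine Finset.sum_congr rfl fun k _ => ?_
  ring

private theorem bf_add_right {m : ℕ} (H : Matrix (Fin m) (Fin m) ℂ) (x y y' : Fin m → ℂ) :
    bf H x (fun j => y j + y' j) = bf H x y + bf H x y' := by
  unfold bf
  rw [← Finset.sum_add_distrib]
  refine Finset.sum_congr rfl fun j _ => ?_
  rw [← Finset.sum_add_distrib]
  refine Finset.sum_congr rfl fun k _ => ?_
  rw [star_add]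
  ring

private theorem bf_smul_left {m : ℕ} (H : Matrix (Fin m) (Fin m) ℂ) (t : ℂ) (x y : Fin m → ℂ) :
    bf H (fun j => t * x j) y = t * bf H x y := by
  unfold bf
  rw [Finset.mul_sum]
  refine Finset.sum_congr rfl fun j _ => ?_
  rw [Finset.mul_sum]
  refine Finset.sum_congr rfl fun k _ => ?_
  ring

private theorem bf_smul_right {m : ℕ} (H : Matrix (Fin m) (Fin m) ℂ) (t : ℂ) (x y : Fin m → ℂ) :
    bf H x (fun j => t * y j) = star t * bf H x y := by
  unfold bf
  rw [Finset.mul_sum]
  refine Finset.sum_congr rfl fun j _ => ?_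
  rw [Finset.mul_sum]
  refine Finset.sum_congr rfl fun k _ => ?_
  rw [star_mul]
  ring

private theorem bf_star {m : ℕ} {H : Matrix (Fin m) (Fin m) ℂ} (hH : H.IsHermitian)
    (x y : Fin m → ℂ) : star (bf H x y) = bf H y x := by
  unfold bf
  rw [star_sum]
  have h1 : ∀ j, star (∑ k, H j k * x j * star (y k)) = ∑ k, H k j * y k * star (x j) := by
    intro j
    rw [star_sum]
    refine Finset.sum_congr rfl fun k _ => ?_
    rw [star_mul, star_mul, star_star, hH.apply]
    ring
  simp only [h1]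
  exact Finset.sum_comm

private theorem hf_eq {m : ℕ} (H : Matrix (Fin m) (Fin m) ℂ) (x : Fin m → ℂ) :
    hf H x = (bf H x x).re := rfl

private theorem hf_expand {m : ℕ} {H : Matrix (Fin m) (Fin m) ℂ} (hH : H.IsHermitian)
    (x y : Fin m → ℂ) (t : ℂ) : hf H (fun j => x j + t * y j) =
      hf H x + 2 * (star t * bf H x y).re + ‖t‖ ^ 2 * hf H y := by
  rw [hf_eq, hf_eq, hf_eq, bf_add_left, bf_add_right, bf_add_right, bf_smul_left, bf_smul_left,
    bf_smul_right, bf_smul_right]
  have h1 : (t * bf H y x).re = (star t * bf H x y).re := by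
    rw [← bf_star hH x y]
    have : t * star (bf H x y) = star (star t * bf H x y) := by
      rw [star_mul, star_star]; ring
    rw [this]
    simp
  have h2 : (t * (star t * bf H y y)).re = ‖t‖ ^ 2 * (bf H y y).re := by
    have : t * (star t * bf H y y) = ((‖t‖ ^ 2 : ℝ) : ℂ) * bf H y y := by
      rw [← mul_assoc]
      congr 1
      have := Complex.mul_conj t
      rw [Complex.normSq_eq_norm_sq] at this
      simpa using this
    rw [this, Complex.re_ofReal_mul]
  simp only [Complex.add_re]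
  rw [h1, h2]
  ring

private theorem hf_nonneg {m : ℕ} {H : Matrix (Fin m) (Fin m) ℂ} (hH : Pd H) (x : Fin m → ℂ) :
    0 ≤ hf H x := by
  by_cases hx : x = 0
  · subst hx
    simp [hf]
  · exact (hH.2 x hx).le

private theorem cs {m : ℕ} {H : Matrix (Fin m) (Fin m) ℂ} (hH : Pd H) (x y : Fin m → ℂ) :
    ‖bf H x y‖ ^ 2 ≤ hf H x * hf H y := by
  by_cases hy : y = 0
  · subst hy
    simp [hf, bf]
  · have hp := hH.2 y hy
    set c := hf H y with hc
    have h := hf_nonneg hH (fun j => x j + (-(bf H x y) / (c : ℂ)) * y j)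
    rw [hf_expand hH.1, ← hc] at h
    have e1 : (star (-(bf H x y) / (c : ℂ)) * bf H x y).re = -(‖bf H x y‖ ^ 2 / c) := by
      have : star (-(bf H x y) / (c : ℂ)) * bf H x y = ((-(‖bf H x y‖ ^ 2 / c) : ℝ) : ℂ) := by
        have h3 := Complex.mul_conj (bf H x y)
        rw [Complex.normSq_eq_norm_sq] at h3
        have h4 : star (-(bf H x y) / (c : ℂ)) = -((starRingEnd ℂ) (bf H x y)) / (c : ℂ) := by
          simp
        rw [h4]
        push_cast
        push_cast at h3
        rw [← h3]
        ring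
      rw [this, Complex.ofReal_re]
    have e2 : ‖-(bf H x y) / (c : ℂ)‖ ^ 2 * c = ‖bf H x y‖ ^ 2 / c := by
      rw [norm_div, norm_neg, Complex.norm_real, Real.norm_of_nonneg hp.le]
      field_simp
    rw [e1, e2] at h
    have h5 : ‖bf H x y‖ ^ 2 / c ≤ hf H x := by linarith
    rwa [div_le_iff₀ hp] at h5

/-- the form of the adjugate -/
private noncomputable def ae {m : ℕ} (H : Matrix (Fin m) (Fin m) ℂ) (b : Fin m → ℂ) : ℝ :=
  (∑ k, ∑ j, H.adjugate k j * b k * star (b j)).re

private theorem ae_eq {m : ℕ} (H : Matrix (Fin m) (Fin m) ℂ) (b : Fin m → ℂ) :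
    ae H b = hf H.adjugate b := rfl

private noncomputable def et {m : ℕ} (H : Matrix (Fin m) (Fin m) ℂ) (b : Fin m → ℂ)
    (k : Fin m) : ℂ := ∑ l, H.adjugate l k * b l

private theorem bf_et {m : ℕ} {H : Matrix (Fin m) (Fin m) ℂ} (b ξ : Fin m → ℂ) :
    bf H (et H b) ξ = H.det * ∑ j, b j * star (ξ j) := by
  have h1 : ∀ k, ∑ j, H j k * et H b j = H.det * b k := by
    intro k
    unfold et
    have h2 : ∀ j, H j k * ∑ l, H.adjugate l j * b l =
        ∑ l, b l * (H.adjugate l j * H j k) := by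
      intro j
      rw [Finset.mul_sum]
      refine Finset.sum_congr rfl fun l _ => ?_
      ring
    simp only [h2]
    rw [Finset.sum_comm]
    have h3 : ∀ l, ∑ j, b l * (H.adjugate l j * H j k) = b l * ((H.adjugate * H) l k) := by
      intro l
      rw [Matrix.mul_apply, Finset.mul_sum]
    simp only [h3]
    rw [Matrix.adjugate_mul]
    simp only [Matrix.smul_apply, Matrix.one_apply, smul_eq_mul, mul_ite, mul_one, mul_zero]
    rw [Finset.sum_ite_eq' Finset.univ k]
    simp [mul_comm]
  unfold bf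
  rw [Finset.sum_comm, Finset.mul_sum]
  refine Finset.sum_congr rfl fun k _ => ?_
  rw [← Finset.sum_mul, h1]
  ring

private theorem hf_et {m : ℕ} {H : Matrix (Fin m) (Fin m) ℂ} (hH : H.IsHermitian) {D : ℝ}
    (hD : H.det = (D : ℂ)) (b : Fin m → ℂ) : hf H (et H b) = D * ae H b := by
  rw [hf_eq, bf_et, hD, Complex.re_ofReal_mul]
  congr 1
  unfold ae
  congr 1
  refine Finset.sum_congr rfl fun k _ => ?_
  unfold et
  rw [star_sum, Finset.mul_sum]
  refine Finset.sum_congr rfl fun l _ => ?_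
  have : star (H.adjugate l k) = H.adjugate k l := by
    have h := hH.adjugate
    exact h.apply k l
  rw [star_mul, this]
  ring

private theorem isOpen_U (C : Cone) : IsOpen C.U :=
  isOpen_ne_fun (MvPolynomial.continuous_eval C.Δ) continuous_const

private theorem star_db {C : Cone} (hC : Good C) {z : Fin C.m → ℂ} (hz : z ∈ C.U) (j : Fin C.m) :
    star (db j (cf C.u) z) = dz j (cf C.u) z := by
  have hd : DifferentiableAt ℝ C.u z :=
    (hC.usm.contDiffAt ((isOpen_U C).mem_nhds hz)).differentiableAt (by simp)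
  have hf1 : ∀ v, fderiv ℝ (cf C.u) z v = ((fderiv ℝ C.u z v : ℝ) : ℂ) := by
    intro v
    have h1 := hd.hasFDerivAt
    have h2 := Complex.ofRealCLM.hasFDerivAt.comp z h1
    have h3 : HasFDerivAt (cf C.u) (Complex.ofRealCLM.comp (fderiv ℝ C.u z)) z := h2
    rw [h3.fderiv]
    rfl
  unfold db dz
  rw [hf1, hf1]
  simp only [star_div₀, star_add, star_mul]
  simp
  ring

theorem hCSD (hEUL : StEUL) : StCSD := by
  intro C hC z hz b
  obtain ⟨e1, -, -, e4, -, -⟩ := hEUL C hC z hz
  obtain ⟨hPd, hdet⟩ := hC.uhes z hz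
  set H := hes C.u z with hH
  set D : ℝ := ‖ev C.J z‖ ^ 2 with hDd
  have hD : 0 < D := by
    have := hC.J0 z hz
    positivity
  have hen : ∀ b : Fin C.m → ℂ, C.en b z = ae H b := fun _ => rfl
  have hnn : ∀ b : Fin C.m → ℂ, 0 ≤ ae H b := by
    intro b
    have h1 := hf_nonneg hPd (et H b)
    rw [hf_et hPd.1 hdet] at h1
    exact nonneg_of_mul_nonneg_right h1 hD
  have hadj : H.adjugate.IsHermitian := hPd.1.adjugate
  refine ⟨?_, ?_, ?_, ?_, ?_⟩
  · rw [hen]; exact hnn b
  · intro ξ
    rw [hen]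
    have h1 := cs hPd (et H b) ξ
    rw [bf_et, hdet, hf_et hPd.1 hdet, norm_mul, Complex.norm_real, Real.norm_of_nonneg hD.le] at h1
    have h2 : D * (‖∑ j, b j * star (ξ j)‖ ^ 2 * D) ≤ D * (ae H b * hf H ξ) := by
      calc D * (‖∑ j, b j * star (ξ j)‖ ^ 2 * D) = (D * ‖∑ j, b j * star (ξ j)‖) ^ 2 := by ring
        _ ≤ D * ae H b * hf H ξ := h1
        _ = D * (ae H b * hf H ξ) := by ring
    exact le_of_mul_le_mul_left h2 hD
  · intro b'
    rw [hen, hen, hen]
    have h1 := hnn (fun j => b j + (-1) * b' j)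
    have h2 : ae H (fun j => b j + b' j) = ae H (fun j => b j + 1 * b' j) := by simp
    rw [h2]
    rw [ae_eq, hf_expand hadj] at h1 ⊢
    rw [ae_eq, ae_eq]
    simp only [star_neg, star_one, norm_neg, norm_one, one_pow, neg_mul, one_mul,
      Complex.neg_re] at h1 ⊢
    linarith
  · intro c
    rw [hen, hen, ae_eq, ae_eq, hf_eq, hf_eq, bf_smul_left, bf_smul_right]
    have : c * (star c * bf H.adjugate b b) = ((‖c‖ ^ 2 : ℝ) : ℂ) * bf H.adjugate b b := by
      rw [← mul_assoc]
      congr 1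
      have := Complex.mul_conj c
      rw [Complex.normSq_eq_norm_sq] at this
      simpa using this
    rw [this, Complex.re_ofReal_mul]
  · rw [hen]
    unfold ae
    have h1 : ∑ k, ∑ j, H.adjugate k j * db k (cf C.u) z * star (db j (cf C.u) z) =
        ((D * C.u z : ℝ) : ℂ) := by
      rw [Finset.sum_comm]
      have h2 : ∀ j, ∑ k, H.adjugate k j * db k (cf C.u) z * star (db j (cf C.u) z) =
          2 * H.det * ((C.w j : ℂ) * z j * dz j (cf C.u) z) := by
        intro j
        rw [← Finset.sum_mul, e4, star_db hC hz]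
        ring
      simp only [h2]
      rw [← Finset.mul_sum, e1, hdet]
      push_cast
      ring
    rw [h1, Complex.ofReal_re]
    ring

end Pool.Agent.Helper75.KP
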